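import Mathlib
import Pool.Agent.H759R2.Kad.Props

open scoped ComplexOrder InnerProductSpace ComplexConjugate
open Finset

noncomputable section

namespace H759R2.Kad

universe u v

theorem amp_norm_le {A : Type u} [CStarAlgebra A] [PartialOrder A] [StarOrderedRing A]
    {H : Type v} [NormedAddCommGroup H] [InnerProductSpace ℂ H] [CompleteSpace H]
    (D : A →ₗ[ℂ] (H →L[ℂ] H)) {γ1 : ℝ} (hγ : 0 ≤ γ1) (hD : ∀ a, ‖D a‖ ≤ γ1 * ‖a‖) (n : ℕ)
    (X : CStarMatrix (Fin n) (Fin n) A) : ‖amp D (Fin n) X‖ ≤ n * γ1 * ‖X‖ := by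
  apply ContinuousLinearMap.opNorm_le_bound _ (by positivity)
  intro w
  have hsum : ∀ i, ‖amp D (Fin n) X w i‖ ≤ γ1 * ‖X‖ * ∑ j, ‖w j‖ := by
    intro i
    rw [amp_apply, mul_sum]
    refine (norm_sum_le _ _).trans (sum_le_sum fun j _ => ?_)
    calc ‖D (X i j) (w j)‖ ≤ ‖D (X i j)‖ * ‖w j‖ := ContinuousLinearMap.le_opNorm _ _
      _ ≤ (γ1 * ‖X i j‖) * ‖w j‖ := by gcongr; exact hD _
      _ ≤ (γ1 * ‖X‖) * ‖w j‖ := by
          gcongr
          exact CStarMatrix.norm_entry_le_norm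
      _ = _ := by ring
  have hcs : (∑ j, ‖w j‖) ^ 2 ≤ n * ‖w‖ ^ 2 := by
    have h1 := sq_sum_le_card_mul_sum_sq (s := (univ : Finset (Fin n))) (f := fun j => ‖w j‖)
    rw [card_univ, Fintype.card_fin] at h1
    rw [PiLp.norm_sq_eq_of_L2]
    exact h1
  have hsq : ‖amp D (Fin n) X w‖ ^ 2 ≤ (n * γ1 * ‖X‖ * ‖w‖) ^ 2 := by
    rw [PiLp.norm_sq_eq_of_L2]
    calc ∑ i, ‖amp D (Fin n) X w i‖ ^ 2 ≤ ∑ _i : Fin n, (γ1 * ‖X‖ * ∑ j, ‖w j‖) ^ 2 :=
          sum_le_sum fun i _ => by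
            gcongr
            exact hsum i
      _ = n * (γ1 * ‖X‖) ^ 2 * (∑ j, ‖w j‖) ^ 2 := by
          rw [sum_const, card_univ, Fintype.card_fin, nsmul_eq_mul]
          ring
      _ ≤ n * (γ1 * ‖X‖) ^ 2 * (n * ‖w‖ ^ 2) := by gcongr
      _ = _ := by ring
  exact abs_le_of_sq_le_sq' hsq (by positivity) |>.2

theorem prove_symm (h1 : St_rec.{u, v}) (h2 : St_growth) : St_symm.{u, v} := by
  intro A _ _ _ H _ _ _ π D τ hD hτ hdix γ1 hγ hDb n hn X
  rcases hγ.eq_or_lt with h0 | hpos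
  · have hz : ∀ a, D a = 0 := by
      intro a
      have := hDb a
      rw [← h0, zero_mul] at this
      exact norm_le_zero_iff.1 this
    have : amp D (Fin n) X = 0 := by
      ext w i
      simp [amp_apply, hz]
    rw [this, norm_zero, ← h0]
    simp
  · let S : ℕ → Set ℝ := fun m => {c | 0 ≤ c ∧ ∀ Y : CStarMatrix (Fin m) (Fin m) A,
      ‖amp D (Fin m) Y‖ ≤ c * ‖Y‖}
    let B : ℕ → ℝ := fun m => sInf (S m)
    have hne : ∀ m, (m : ℝ) * γ1 ∈ S m := fun m =>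
      ⟨by positivity, fun Y => amp_norm_le D hγ hDb m Y⟩
    have hbdd : ∀ m, BddBelow (S m) := fun m => ⟨0, fun c hc => hc.1⟩
    have hB0 : ∀ m, 0 ≤ B m := fun m => le_csInf ⟨_, hne m⟩ (fun c hc => hc.1)
    have hBle : ∀ m c, c ∈ S m → B m ≤ c := fun m c hc => csInf_le (hbdd m) hc
    have hBm : ∀ m (Y : CStarMatrix (Fin m) (Fin m) A), ‖amp D (Fin m) Y‖ ≤ B m * ‖Y‖ := by
      intro m Y
      rcases (norm_nonneg Y).eq_or_lt with hY | hY
      · have := (hne m).2 Y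
        rw [← hY, mul_zero] at this ⊢
        exact this
      · rw [← div_le_iff₀ hY]
        apply le_csInf ⟨_, hne m⟩
        intro c hc
        rw [div_le_iff₀ hY]
        exact hc.2 Y
    have hgr := h2 (fun m => B m / γ1) (fun m => div_nonneg (hB0 m) hγ)
      (fun m => by
        show B m / γ1 ≤ m
        rw [div_le_iff₀ hpos]
        exact hBle m _ (hne m))
      (fun Q m l hQ hm hl => by
        show B m / γ1 ≤ 50 * (B l / γ1) + 16 * Q ^ 2
        have h3 := h1 A H π D τ hD hτ hdix γ1 (B l) hγ (hB0 l) hDb Q m l hQ hm hl (hBm l)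
        have h4 : B m ≤ 50 * B l + 16 * Q ^ 2 * γ1 := by
          apply hBle
          have := hB0 l
          exact ⟨by positivity, h3⟩
        rw [div_le_iff₀ hpos]
        calc B m ≤ 50 * B l + 16 * Q ^ 2 * γ1 := h4
          _ = _ := by field_simp) n hn
    have h5 : B n ≤ 60000 * Real.exp (11 * √(Real.log n)) * γ1 := by
      have h6 : B n / γ1 ≤ 60000 * Real.exp (11 * √(Real.log n)) := hgr
      rwa [div_le_iff₀ hpos] at h6
    exact (hBm n X).trans (mul_le_mul_of_nonneg_right h5 (norm_nonneg X))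

end H759R2.Kad
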